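import Pool.Agent.V1160.BohrZ

/-!
# A precompact abelian group which is not a quotient of any reflexive group
-/

namespace Pool.Agent.Results.MP_329fc6_gt.NotQuotient

open Pool.Agent.V1160.BohrZ

universe u

/-- There is a Hausdorff precompact abelian group `H` (the integers with the Bohr topology)
such that no reflexive Hausdorff abelian group `G`, precompact or not and in any universe,
admits a continuous open surjective homomorphism onto `H`. -/
theorem result : ∃ (H : Type) (_ : CommGroup H) (_ : TopologicalSpace H)
    (_ : IsTopologicalGroup H) (_ : T2Space H), Precompact H ∧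
    ∀ (G : Type u) [CommGroup G] [TopologicalSpace G] [IsTopologicalGroup G] [T2Space G],
      Reflexive G → ¬ ∃ p : G →ₜ* H, Function.Surjective p ∧ IsOpenMap p :=
  ⟨BZ, inferInstance, inferInstance, inferInstance, inferInstance, precompact_BZ,
    fun _ _ _ _ _ hR ⟨p, _, ho⟩ => no_quotient hR.continuous p ho⟩

end Pool.Agent.Results.MP_329fc6_gt.NotQuotient
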